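import Pool.Agent.H79.BN.ChkF
import Pool.Agent.H79.BN.C7

/-!
# Non-separation: row FC1, the fast path checker
-/

set_option autoImplicit false

namespace Pool.Agent.H70.BN

open Pool.Agent.H79.BN

theorem hadd (a b : ℤ) : Int.add a b = a + b := rfl
theorem hsub (a b : ℤ) : Int.sub a b = a - b := rfl
theorem hmul (a b : ℤ) : Int.mul a b = a * b := rfl

theorem ineg2_of {x y : ℤ} (hx : x < 0) (hy : y ≤ 0) : ineg2 x y = true := by
  unfold ineg2
  have h1 : ipos x = false := by
    rw [← Bool.not_eq_true, ipos_iff]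
    omega
  have h2 : ipos y = false := by
    rw [← Bool.not_eq_true, ipos_iff]
    omega
  rw [h1, h2, (ineg_iff x).2 hx]
  rfl

theorem ipos2_of {x y : ℤ} (hx : 0 < x) (hy : 0 ≤ y) : ipos2 x y = true := by
  unfold ipos2
  have h1 : ineg x = false := by
    rw [← Bool.not_eq_true, ineg_iff]
    omega
  have h2 : ineg y = false := by
    rw [← Bool.not_eq_true, ineg_iff]
    omega
  rw [h1, h2, (ipos_iff x).2 hx]
  rfl

theorem not_ipos {x : ℤ} (h : (!(ipos x)) = true) : x ≤ 0 := by
  rw [Bool.not_eq_true', ← Bool.not_eq_true, ipos_iff] at h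
  omega

theorem not_ineg {x : ℤ} (h : (!(ineg x)) = true) : 0 ≤ x := by
  rw [Bool.not_eq_true', ← Bool.not_eq_true, ineg_iff] at h
  omega

section

variable {n : ℕ} [NeZero n] (w : Fin n → PI) (S : ℕ → Sd) (E : Fin n → Bool)

/-- one step of the fast checker -/
theorem pchk_succ (k c : ℕ) (a b h a' b' h' : ℤ) : pchk S E (k + 1) c a b h a' b' h' =
    (ineg (a * (S (c % 10)).py - b * (S (c % 10)).px - h) &&
      (!(ipos (a' * (S (c % 10)).py - b' * (S (c % 10)).px - h')) &&
      (ipos (a * (S (c % 10)).qy - b * (S (c % 10)).qx - h) &&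
      (!(ineg (a' * (S (c % 10)).qy - b' * (S (c % 10)).qx - h')) &&
      ((Nat.beq k 0 && E (Fin.ofNat n (c % 10))) ||
        pchk S E k (c / 10)
          ((S (c % 10)).A * a + (S (c % 10)).B * b) ((S (c % 10)).B * a - (S (c % 10)).A * b)
          (((S (c % 10)).A * a + (S (c % 10)).B * b) * (S (c % 10)).py -
            ((S (c % 10)).B * a - (S (c % 10)).A * b) * (S (c % 10)).px +
            (S (c % 10)).N * (a * (S (c % 10)).py - b * (S (c % 10)).px - h))
          ((S (c % 10)).A * a' + (S (c % 10)).B * b') ((S (c % 10)).B * a' - (S (c % 10)).A * b')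
          (((S (c % 10)).A * a' + (S (c % 10)).B * b') * (S (c % 10)).py -
            ((S (c % 10)).B * a' - (S (c % 10)).A * b') * (S (c % 10)).px +
            (S (c % 10)).N * (a' * (S (c % 10)).py - b' * (S (c % 10)).px - h'))))))) := rfl

/-- one step of the slow checker -/
theorem chkI_crs (s : Fin n) (t : Tr n) (X Y l a b c d ex ey : ℤ)
    (hex : (w (s + 1)).x - (w s).x = ex) (hey : (w (s + 1)).y - (w s).y = ey) :
    chkI w E (.crs s t) X Y l a b c d =
    (ineg2 (icr a b (l * (w s).x - X) (l * (w s).y - Y))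
        (icr c d (l * (w s).x - X) (l * (w s).y - Y)) &&
      (ipos2 (icr a b (l * (w (s + 1)).x - X) (l * (w (s + 1)).y - Y))
        (icr c d (l * (w (s + 1)).x - X) (l * (w (s + 1)).y - Y)) &&
      (E s || chkI w E t
        ((ex * ex + ey * ey) * (l * (w s).x) -
          ((ex * ex - ey * ey) * (l * (w s).x - X) + 2 * (ex * ey) * (l * (w s).y - Y)))
        ((ex * ex + ey * ey) * (l * (w s).y) -
          (2 * (ex * ey) * (l * (w s).x - X) - (ex * ex - ey * ey) * (l * (w s).y - Y)))
        (l * (ex * ex + ey * ey))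
        ((ex * ex - ey * ey) * a + 2 * (ex * ey) * b) (2 * (ex * ey) * a - (ex * ex - ey * ey) * b)
        ((ex * ex - ey * ey) * c + 2 * (ex * ey) * d)
        (2 * (ex * ey) * c - (ex * ex - ey * ey) * d)))) := by
  subst hex hey
  rfl

end

theorem fc1 : T_FC1 := by
  intro n _ w S E hS k
  induction k with
  | zero =>
    intro c X Y l a b h a' b' h' _ _ _ hp
    exact absurd hp (by change ¬ (false = true); simp)
  | succ k ih =>
    intro c X Y l a b h a' b' h' hl h1 h2 hp
    rw [pchk_succ] at hp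
    simp only [Bool.and_eq_true] at hp
    obtain ⟨p1, p2, p3, p4, p5⟩ := hp
    unfold chkSd at hS
    have hS1 := (List.all_eq_true.1 hS) (c % 10) (List.mem_range.2 (Nat.mod_lt _ (by norm_num)))
    simp only [Bool.and_eq_true, decide_eq_true_eq] at hS1
    obtain ⟨⟨⟨⟨⟨⟨⟨s1, s2⟩, s3⟩, s4⟩, s5⟩, s6⟩, s7⟩, s8⟩ := hS1
    rw [s1, s2, s3, s4] at s5 s6 s7
    obtain ⟨s, hs⟩ : ∃ s : Fin n, s = Fin.ofNat n (c % 10) := ⟨_, rfl⟩
    rw [← hs] at s1 s2 s3 s4 s5 s6 s7 p5
    obtain ⟨ex, hex⟩ : ∃ ex : ℤ, (w (s + 1)).x - (w s).x = ex := ⟨_, rfl⟩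
    obtain ⟨ey, hey⟩ : ∃ ey : ℤ, (w (s + 1)).y - (w s).y = ey := ⟨_, rfl⟩
    rw [hex, hey] at s5 s6 s7
    rw [s7] at s8
    rw [s1, s2] at p1 p2
    rw [s3, s4] at p3 p4
    rw [s1, s2, s5, s6, s7] at p5
    rw [ineg_iff] at p1
    rw [ipos_iff] at p3
    have p2' := not_ipos p2
    have p4' := not_ineg p4
    have hpth : pth (n := n) (k + 1) c .nil = .crs s (pth k (c / 10) .nil) := by
      rw [hs]
      rfl
    rw [hpth]
    unfold icr at h1 h2
    rw [hsub, hmul, hmul] at h1 h2
    -- the signs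
    have c1 : ∀ a b h : ℤ, a * Y - b * X = l * h →
        icr a b (l * (w s).x - X) (l * (w s).y - Y) = l * (a * (w s).y - b * (w s).x - h) := by
      intro a b h h3
      unfold icr
      rw [hsub, hmul, hmul]
      linear_combination (-1) * h3
    have c2 : ∀ a b h : ℤ, a * Y - b * X = l * h →
        icr a b (l * (w (s + 1)).x - X) (l * (w (s + 1)).y - Y) =
          l * (a * (w (s + 1)).y - b * (w (s + 1)).x - h) := by
      intro a b h h3
      unfold icr
      rw [hsub, hmul, hmul]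
      linear_combination (-1) * h3
    have n1 : icr a b (l * (w s).x - X) (l * (w s).y - Y) < 0 := by
      rw [c1 a b h h1]
      exact mul_neg_of_pos_of_neg hl p1
    have n2 : icr a' b' (l * (w s).x - X) (l * (w s).y - Y) ≤ 0 := by
      rw [c1 a' b' h' h2]
      exact mul_nonpos_of_nonneg_of_nonpos hl.le p2'
    have n3 : 0 < icr a b (l * (w (s + 1)).x - X) (l * (w (s + 1)).y - Y) := by
      rw [c2 a b h h1]
      exact mul_pos hl p3
    have n4 : 0 ≤ icr a' b' (l * (w (s + 1)).x - X) (l * (w (s + 1)).y - Y) := by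
      rw [c2 a' b' h' h2]
      exact mul_nonneg hl.le p4'
    rw [chkI_crs w E s _ X Y l a b a' b' ex ey hex hey,
      chkI_crs w E s _ X Y l a b a b ex ey hex hey, ineg2_of n1 n2, ineg2_of n1 n1.le,
      ipos2_of n3 n4, ipos2_of n3 n3.le, Bool.true_and, Bool.true_and, Bool.true_and,
      Bool.true_and]
    rw [Bool.or_eq_true] at p5
    rcases p5 with p5 | p5
    · rw [Bool.and_eq_true] at p5
      rw [p5.2]
      exact ⟨rfl, rfl⟩
    · have h3 := ih (c / 10)
        ((ex * ex + ey * ey) * (l * (w s).x) -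
          ((ex * ex - ey * ey) * (l * (w s).x - X) + 2 * (ex * ey) * (l * (w s).y - Y)))
        ((ex * ex + ey * ey) * (l * (w s).y) -
          (2 * (ex * ey) * (l * (w s).x - X) - (ex * ex - ey * ey) * (l * (w s).y - Y)))
        (l * (ex * ex + ey * ey)) _ _ _ _ _ _ (mul_pos hl s8) ?_ ?_ p5
      · rw [h3.1, h3.2, Bool.or_true]
        exact ⟨rfl, rfl⟩
      · unfold icr
        rw [hsub, hmul, hmul]
        linear_combination (-(ex * ex + ey * ey) ^ 2) * h1
      · unfold icr
        rw [hsub, hmul, hmul]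
        linear_combination (-(ex * ex + ey * ey) ^ 2) * h2

end Pool.Agent.H70.BN
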